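import Pool.Agent.H3.LU.BStmts

/-! Project LU, part B1: modules POL, BEY, RET, PUR, BAS (elementary facts about the polytope). -/

set_option autoImplicit false

open scoped BigOperators Manifold ContDiff Topology
open Pool.H3.L2

noncomputable section

namespace Pool.LU

section

variable {n : ℕ} {V : Type} (P : SPoly n V)

theorem pol_l_comb (v : V) (s t : ℝ) (hst : s + t = 1) (x y : Fin n → ℝ) :
    P.l v (s • x + t • y) = s * P.l v x + t * P.l v y := by
  unfold SPoly.l
  rw [map_add, map_smul, map_smul, smul_eq_mul, smul_eq_mul]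
  have : P.b v = (s + t) * P.b v := by rw [hst, one_mul]
  linear_combination this

theorem pol_l_add (v : V) (x d : Fin n → ℝ) (t : ℝ) :
    P.l v (x + t • d) = P.l v x + t * P.a v d := by
  unfold SPoly.l
  rw [map_add, map_smul, smul_eq_mul]; ring

theorem pol_l_cont (v : V) : Continuous (P.l v) := by
  unfold SPoly.l
  exact (LinearMap.continuous_of_finiteDimensional (P.a v)).add continuous_const

theorem pol_convex : Convex ℝ P.cham := by
  intro x hx y hy s t hs ht hst v
  rw [pol_l_comb P v s t hst]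
  exact add_nonneg (mul_nonneg hs (hx v)) (mul_nonneg ht (hy v))

/-- independent functionals can be prescribed -/
theorem pol_prescribe {ι : Type} (f : ι → (Fin n → ℝ) →ₗ[ℝ] ℝ)
    (hf : LinearIndependent ℝ f) (c : ι → ℝ) : ∃ d : Fin n → ℝ, ∀ i, f i d = c i := by
  classical
  obtain ⟨φ, hφ⟩ := LinearMap.exists_extend
    ((Module.Basis.span hf).constr ℝ c : Submodule.span ℝ (Set.range f) →ₗ[ℝ] ℝ)
  have h1 : ∀ i, φ (f i) = c i := by
    intro i
    have h2 : (φ ∘ₗ (Submodule.span ℝ (Set.range f)).subtype) (Module.Basis.span hf i) = c i := by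
      rw [hφ, Module.Basis.constr_basis]
    have h3 : ((Module.Basis.span hf i : Submodule.span ℝ (Set.range f)) :
        (Fin n → ℝ) →ₗ[ℝ] ℝ) = f i := by rw [Module.Basis.span_apply hf i]
    rw [← h3]; exact h2
  refine ⟨(Module.evalEquiv ℝ (Fin n → ℝ)).symm φ, fun i => ?_⟩
  rw [← h1 i]
  exact Module.apply_evalEquiv_symm_apply ℝ (Fin n → ℝ) (f i) φ

end

theorem pol : POLStmt := by
  intro n V _ P hP
  refine ⟨pol_convex P, ?_, ?_, ?_, ?_⟩
  · obtain ⟨x, hx, -⟩ := hP.flag ∅ (by simp)
    exact ⟨x, hx⟩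
  · intro x hx u hu v hv huv
    refine ⟨huv, x, hx, ?_⟩
    rintro w (rfl | hw)
    · exact hu
    · rw [Set.mem_singleton_iff] at hw; rw [hw]; exact hv
  · intro σ
    have : {x : Pt P | P.sig x.1 ⊆ σ} = ⋂ v : V, {x : Pt P | v ∉ σ → P.l v x.1 ≠ 0} := by
      ext x
      simp only [Set.mem_ofPred_eq, Set.mem_iInter]
      constructor
      · intro h v hv h0; exact hv (h h0)
      · intro h v hv
        by_contra hc
        exact h v hc hv
    rw [this]
    refine isOpen_iInter_of_finite (fun v => ?_)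
    by_cases hv : v ∈ σ
    · have : {x : Pt P | v ∉ σ → P.l v x.1 ≠ 0} = Set.univ := by
        ext x; simp [hv]
      rw [this]; exact isOpen_univ
    · have : {x : Pt P | v ∉ σ → P.l v x.1 ≠ 0} = {x : Pt P | P.l v x.1 ≠ 0} := by
        ext x; simp [hv]
      rw [this]
      exact isOpen_ne_fun ((pol_l_cont P v).comp continuous_subtype_val) continuous_const
  · intro σ
    have : {x : Pt P | σ ⊆ P.sig x.1} = ⋂ v : V, {x : Pt P | v ∈ σ → P.l v x.1 = 0} := by
      ext x
      simp only [Set.mem_ofPred_eq, Set.mem_iInter]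
      exact Iff.rfl
    rw [this]
    refine isClosed_iInter (fun v => ?_)
    by_cases hv : v ∈ σ
    · have : {x : Pt P | v ∈ σ → P.l v x.1 = 0} = {x : Pt P | P.l v x.1 = 0} := by
        ext x; simp [hv]
      rw [this]
      exact isClosed_eq ((pol_l_cont P v).comp continuous_subtype_val) continuous_const
    · have : {x : Pt P | v ∈ σ → P.l v x.1 = 0} = Set.univ := by
        ext x; simp [hv]
      rw [this]; exact isClosed_univ

theorem bey : BEYStmt := by
  classical
  intro n V _ P hP σ hσ
  obtain ⟨x, hx, hsub⟩ := hσ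
  obtain ⟨d, hd⟩ := pol_prescribe (fun v : P.sig x => P.a v) (hP.simple x hx)
    (fun v => if (v : V) ∈ σ then -1 else 1)
  have hev : ∀ᶠ ε in 𝓝[>] (0 : ℝ), ∀ v : V, v ∉ P.sig x → 0 < P.l v x + ε * P.a v d := by
    rw [Filter.eventually_all]
    intro v
    by_cases hv : v ∈ P.sig x
    · exact Filter.Eventually.of_forall (fun ε h => absurd hv h)
    · have hpos : 0 < P.l v x := lt_of_le_of_ne (hx v) (fun h => hv h.symm)
      have hc : Filter.Tendsto (fun ε : ℝ => P.l v x + ε * P.a v d) (𝓝[>] 0)
          (𝓝 (P.l v x + 0 * P.a v d)) := by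
        refine Filter.Tendsto.mono_left ?_ nhdsWithin_le_nhds
        exact (Continuous.tendsto (by fun_prop) 0)
      rw [zero_mul, add_zero] at hc
      filter_upwards [hc.eventually (lt_mem_nhds hpos)] with ε hε _
      exact hε
  obtain ⟨ε, hε1, hε2⟩ := (hev.and self_mem_nhdsWithin).exists
  have hε0 : 0 < ε := hε2
  refine ⟨x + ε • d, ?_, ?_⟩
  · intro v hv
    rw [pol_l_add]
    have h1 : P.l v x = 0 := hsub hv
    have h2 := hd ⟨v, hsub hv⟩
    simp only [hv, if_true] at h2
    rw [h1, h2]; linarith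
  · intro v hv
    rw [pol_l_add]
    by_cases hvs : v ∈ P.sig x
    · have h1 : P.l v x = 0 := hvs
      have h2 := hd ⟨v, hvs⟩
      simp only [hv, if_false] at h2
      rw [h1, h2]; linarith
    · exact hε1 v hvs

theorem ret (hB : BEYStmt) (_hPOL : POLStmt) : RETStmt := by
  classical
  intro n V _ P hP σ hσ hne
  obtain ⟨z, hz1, hz2⟩ := hB n V P hP σ hσ
  have hfne : (Finset.univ.filter (· ∈ σ)).Nonempty := by
    obtain ⟨v, hv⟩ := hne
    exact ⟨v, by simpa using hv⟩
  set tv : V → (Fin n → ℝ) → ℝ := fun v x => (-P.l v z) / (P.l v x - P.l v z) with htv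
  set T : (Fin n → ℝ) → ℝ := fun x => (Finset.univ.filter (· ∈ σ)).sup' hfne (fun v => tv v x) with hT
  have hden : ∀ v ∈ σ, ∀ x ∈ P.cham, 0 < P.l v x - P.l v z := by
    intro v hv x hx
    have := hz1 v hv; have := hx v; linarith
  have hTc : ContinuousOn T P.cham := by
    refine ContinuousOn.finset_sup'_apply hfne (fun v hv => ?_)
    have hv' : v ∈ σ := by simpa using hv
    refine ContinuousOn.div continuousOn_const ?_ (fun x hx => (hden v hv' x hx).ne')
    exact ((pol_l_cont P v).continuousOn).sub continuousOn_const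
  have htv1 : ∀ v ∈ σ, ∀ x ∈ P.cham, tv v x ≤ 1 := by
    intro v hv x hx
    rw [htv]
    simp only
    rw [div_le_one (hden v hv x hx)]
    have := hx v; linarith
  have htv0 : ∀ v ∈ σ, ∀ x ∈ P.cham, 0 < tv v x := by
    intro v hv x hx
    exact div_pos (by have := hz1 v hv; linarith) (hden v hv x hx)
  have hT1 : ∀ x ∈ P.cham, T x ≤ 1 := by
    intro x hx
    refine Finset.sup'_le _ _ (fun v hv => htv1 v (by simpa using hv) x hx)
  have hTle : ∀ v ∈ σ, ∀ x, tv v x ≤ T x := by
    intro v hv x
    exact Finset.le_sup' (fun v => tv v x) (by simpa using hv)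
  have hT0 : ∀ x ∈ P.cham, 0 < T x := by
    intro x hx
    obtain ⟨v, hv⟩ := hne
    exact (htv0 v hv x hx).trans_le (hTle v hv x)
  have hr : ∀ v x, P.l v (z + T x • (x - z)) = (1 - T x) * P.l v z + T x * P.l v x := by
    intro v x
    rw [pol_l_add]
    have : P.a v (x - z) = P.l v x - P.l v z := by
      unfold SPoly.l; rw [map_sub]; ring
    rw [this]; ring
  have hrc : ∀ x ∈ P.cham, z + T x • (x - z) ∈ P.cham := by
    intro x hx v
    show 0 ≤ P.l v _
    rw [hr]
    by_cases hv : v ∈ σ
    · have h1 := hTle v hv x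
      have h2 := hden v hv x hx
      have h3 : -P.l v z ≤ T x * (P.l v x - P.l v z) := by
        rw [← div_le_iff₀ h2]; exact h1
      nlinarith
    · have h1 := hz2 v hv
      have h2 := hT1 x hx
      have h3 := hT0 x hx
      have h4 := hx v
      have : 0 ≤ (1 - T x) * P.l v z := mul_nonneg (by linarith) h1.le
      have : 0 ≤ T x * P.l v x := mul_nonneg h3.le h4
      linarith
  refine ⟨fun s x => (1 - s) • x + s • (z + T x • (x - z)), ?_, ?_, ?_, ?_, ?_⟩
  · have hT2 : ContinuousOn (fun p : ℝ × (Fin n → ℝ) => T p.2) (Set.Icc 0 1 ×ˢ P.cham) :=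
      hTc.comp continuousOn_snd (fun p hp => hp.2)
    refine ContinuousOn.add ?_ ?_
    · exact (Continuous.continuousOn (by fun_prop))
    · refine ContinuousOn.smul continuousOn_fst ?_
      refine continuousOn_const.add (hT2.smul ?_)
      exact (Continuous.continuousOn (by fun_prop))
  · intro s hs x hx
    exact pol_convex P hx (hrc x hx) (by linarith [hs.2]) hs.1 (by ring)
  · intro x hx
    simp
  · intro x hx
    obtain ⟨v, hv, hv2⟩ := Finset.exists_mem_eq_sup' hfne (fun v => tv v x)
    have hv' : v ∈ σ := by simpa using hv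
    refine ⟨v, hv', ?_⟩
    have e : T x = tv v x := hv2
    have : (1 - (1 : ℝ)) • x + (1 : ℝ) • (z + T x • (x - z)) = z + T x • (x - z) := by simp
    show P.l v ((1 - (1 : ℝ)) • x + (1 : ℝ) • (z + T x • (x - z))) = 0
    rw [this, hr, e]
    have h2 := hden v hv' x hx
    rw [htv]
    simp only
    field_simp
    ring
  · rintro s hs x hx ⟨v, hv, hv0⟩
    have h1 : tv v x = 1 := by
      rw [htv]
      simp only
      rw [hv0, zero_sub]
      exact div_self (by have := hz1 v hv; linarith)
    have h2 : T x = 1 := le_antisymm (hT1 x hx) (h1 ▸ hTle v hv x)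
    simp only
    rw [h2, one_smul, add_sub_cancel, ← add_smul]
    simp

theorem pur (_hPOL : POLStmt) : PURStmt := by
  classical
  intro n V _ P hP
  have hcard : ∀ x ∈ P.cham, Fintype.card (P.sig x) ≤ n := by
    intro x hx
    have h1 := (hP.simple x hx).fintype_card_le_finrank
    have h2 : Module.finrank ℝ ((Fin n → ℝ) →ₗ[ℝ] ℝ) = n := by
      rw [Module.finrank_linearMap]; simp
    rwa [h2] at h1
  have hstep : ∀ x ∈ P.cham, Fintype.card (P.sig x) < n → ∃ y ∈ P.cham, P.sig x ⊂ P.sig y := by
    intro x hx hlt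
    have hker : LinearMap.ker (LinearMap.pi (fun v : P.sig x => P.a v)) ≠ ⊥ := by
      apply LinearMap.ker_ne_bot_of_finrank_lt
      simpa using hlt
    obtain ⟨d, hd, hd0⟩ := Submodule.exists_mem_ne_zero_of_ne_bot hker
    have hda : ∀ v ∈ P.sig x, P.a v d = 0 := by
      intro v hv
      have := congrFun (LinearMap.mem_ker.1 hd) ⟨v, hv⟩
      simpa using this
    set T : Set ℝ := {t | x + t • d ∈ P.cham} with hT
    have hTcl : IsClosed T := by
      refine hP.compact.isClosed.preimage (f := fun t : ℝ => x + t • d) ?_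
      fun_prop
    have hTb : Bornology.IsBounded T := by
      obtain ⟨M, hM⟩ := hP.compact.isBounded.exists_norm_le
      refine (Metric.isBounded_iff_subset_closedBall 0).2 ⟨(M + ‖x‖) / ‖d‖, fun t ht => ?_⟩
      rw [Metric.mem_closedBall, dist_zero_right, le_div_iff₀ (norm_pos_iff.2 hd0)]
      have h1 := hM _ ht
      calc ‖t‖ * ‖d‖ = ‖t • d‖ := (norm_smul _ _).symm
        _ = ‖(x + t • d) - x‖ := by rw [add_sub_cancel_left]
        _ ≤ ‖x + t • d‖ + ‖x‖ := norm_sub_le _ _
        _ ≤ M + ‖x‖ := by linarith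
    have hTc : IsCompact T := Metric.isCompact_of_isClosed_isBounded hTcl hTb
    have hTne : T.Nonempty := ⟨0, by simpa [hT] using hx⟩
    obtain ⟨t, ht, htmax⟩ := hTc.exists_isMaxOn hTne continuousOn_id
    refine ⟨x + t • d, ht, ?_⟩
    have hsub : P.sig x ⊆ P.sig (x + t • d) := by
      intro v hv
      show P.l v (x + t • d) = 0
      rw [pol_l_add, hda v hv, mul_zero, add_zero]; exact hv
    refine lt_of_le_of_ne hsub (fun heq => ?_)
    have hev : ∀ᶠ ε in 𝓝[>] (0 : ℝ), ∀ v : V, 0 ≤ P.l v (x + (t + ε) • d) := by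
      rw [Filter.eventually_all]
      intro v
      by_cases hv : v ∈ P.sig x
      · refine Filter.Eventually.of_forall (fun ε => ?_)
        rw [pol_l_add, hda v hv, mul_zero, add_zero]
        exact le_of_eq (Eq.symm hv)
      · have hv' : v ∉ P.sig (x + t • d) := by rw [← heq]; exact hv
        have hpos : 0 < P.l v (x + t • d) := lt_of_le_of_ne (ht v) (fun h => hv' h.symm)
        have hc : Filter.Tendsto (fun ε : ℝ => P.l v (x + (t + ε) • d)) (𝓝[>] 0)
            (𝓝 (P.l v (x + (t + 0) • d))) := by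
          refine Filter.Tendsto.mono_left ?_ nhdsWithin_le_nhds
          have : Continuous (fun ε : ℝ => P.l v (x + (t + ε) • d)) :=
            (pol_l_cont P v).comp (by fun_prop)
          exact this.tendsto 0
        rw [add_zero] at hc
        filter_upwards [hc.eventually (lt_mem_nhds hpos)] with ε hε
        exact hε.le
    obtain ⟨ε, hε1, hε2⟩ := (hev.and self_mem_nhdsWithin).exists
    have hε0 : (0 : ℝ) < ε := hε2
    have h3 : t + ε ≤ t := htmax (show t + ε ∈ T from hε1)
    linarith
  have key : ∀ k : ℕ, ∀ x ∈ P.cham, n - Fintype.card (P.sig x) = k →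
      ∃ y ∈ P.cham, P.sig x ⊆ P.sig y ∧ Fintype.card (P.sig y) = n := by
    intro k
    induction k using Nat.strong_induction_on with
    | _ k ih =>
      intro x hx hk
      rcases (hcard x hx).eq_or_lt with h | h
      · exact ⟨x, hx, subset_rfl, h⟩
      · obtain ⟨y, hy, hxy⟩ := hstep x hx h
        have hlt : Fintype.card (P.sig x) < Fintype.card (P.sig y) := by
          have h1 := Set.card_lt_card hxy
          exact h1
        obtain ⟨y', hy', h1, h2⟩ := ih (n - Fintype.card (P.sig y)) (by omega) y hy rfl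
        exact ⟨y', hy', hxy.1.trans h1, h2⟩
  intro x hx
  obtain ⟨y, hy, h1, h2⟩ := key _ x hx rfl
  exact ⟨y, hy, h1, ⟨(Fintype.equivFinOfCardEq h2).symm⟩⟩

theorem bas : BASStmt := by
  classical
  intro n V _ P hP y hy e
  set A : (Fin n → ℝ) →ₗ[ℝ] (Fin n → ℝ) := LinearMap.pi (fun i => P.a (e i)) with hA
  have hli : LinearIndependent ℝ (fun i : Fin n => P.a (e i)) :=
    (hP.simple y hy).comp e e.injective
  have hsurj : Function.Surjective A := by
    intro c
    obtain ⟨d, hd⟩ := pol_prescribe (fun i : Fin n => P.a (e i)) hli c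
    exact ⟨d, funext hd⟩
  have hinj : Function.Injective A := LinearMap.injective_iff_surjective.2 hsurj
  set L : (Fin n → ℝ) ≃ₗ[ℝ] (Fin n → ℝ) := LinearEquiv.ofBijective A ⟨hinj, hsurj⟩ with hL
  have hLA : ∀ x, L x = A x := fun x => rfl
  refine ⟨fun t => L.symm (t - fun i => P.b (e i)), ?_, ?_, ?_⟩
  · have h1 : ContDiff ℝ ∞ (L.symm.toContinuousLinearEquiv) :=
      L.symm.toContinuousLinearEquiv.contDiff
    exact h1.comp (contDiff_id.sub contDiff_const)
  · intro t i
    have h1 : A (L.symm (t - fun i => P.b (e i))) = t - fun i => P.b (e i) := by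
      rw [← hLA]; exact L.apply_symm_apply _
    have h2 := congrFun h1 i
    have h3 : A (L.symm (t - fun i => P.b (e i))) i =
        P.a (e i) (L.symm (t - fun i => P.b (e i))) := rfl
    show P.a (e i) (L.symm (t - fun i => P.b (e i))) + P.b (e i) = t i
    rw [← h3, h2]
    simp
  · intro x
    have : ((fun i => P.l (e i) x) - fun i => P.b (e i)) = L x := by
      rw [hLA]
      funext i
      show P.a (e i) x + P.b (e i) - P.b (e i) = P.a (e i) x
      ring
    show L.symm _ = x
    rw [this, L.symm_apply_apply]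

end Pool.LU
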