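import Pool.Agent.H3.LU.BStmts

/-! Project LU, part B1: module PRP (the action is proper). -/

set_option autoImplicit false

open scoped BigOperators Manifold ContDiff Topology
open Pool.H3.L2

noncomputable section

namespace Pool.LU

theorem prp (hC : CLEStmt) : PRPStmt := by
  intro n V _ _ P W _ R hP K L hK hL
  obtain ⟨-, hlf⟩ := hC n V P W R hP
  have h1 := hlf.finite_nonempty_inter_compact hK
  have h2 := hlf.finite_nonempty_inter_compact hL
  refine ((h2.prod h1).image (fun p : W × W => p.1 * p.2⁻¹)).subset ?_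
  rintro g ⟨q, ⟨p, hpK, rfl⟩, hqL⟩
  obtain ⟨⟨w, x⟩, rfl⟩ := Quotient.exists_rep p
  refine ⟨(g * w, w), ⟨?_, ?_⟩, by simp⟩
  · exact ⟨g • mk R w x, ⟨x, (smul_mk R g w x).symm⟩, hqL⟩
  · exact ⟨mk R w x, ⟨x, rfl⟩, hpK⟩

end Pool.LU
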